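import Mathlib

/-! Reduction of the statement on the Riemann sphere to the case of a bounded domain. -/

set_option autoImplicit false

open Set Filter Topology Polynomial OnePoint

namespace Pool.Agent.Work.MP_042f46_an.Sp

theorem no_common {p q : ℂ[X]} (hc : IsCoprime p q) {z : ℂ} (hp : p.eval z = 0)
    (hq : q.eval z = 0) : False := by
  obtain ⟨u, v, h⟩ := hc
  have := congrArg (eval z) h
  simp [hp, hq] at this

theorem top_ne {p q : ℂ[X]} (hd : 2 ≤ max p.natDegree q.natDegree)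
    (hp : p.coeff (max p.natDegree q.natDegree) = 0)
    (hq : q.coeff (max p.natDegree q.natDegree) = 0) : False := by
  rcases le_total p.natDegree q.natDegree with h | h
  · rw [max_eq_right h] at hd hq
    rw [leadingCoeff_eq_zero.1 hq] at hd
    simp at hd
  · rw [max_eq_left h] at hd hp
    rw [leadingCoeff_eq_zero.1 hp] at hd
    simp at hd

theorem noninj {p q : ℂ[X]} (hc : IsCoprime p q) (hd : 2 ≤ max p.natDegree q.natDegree) :
    ∃ z w : ℂ, z ≠ w ∧ q.eval z ≠ 0 ∧ q.eval w ≠ 0 ∧ p.eval z / q.eval z = p.eval w / q.eval w := by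
  by_contra hcon
  push Not at hcon
  set d := max p.natDegree q.natDegree with hdd
  have key : ∀ c : ℂ, p.coeff d - c * q.coeff d ≠ 0 →
      ∃ z, (wronskian p q).IsRoot z ∧ p.eval z / q.eval z = c := by
    intro c hcd
    have val : ∀ z, (p - C c * q).eval z = 0 → q.eval z ≠ 0 ∧ p.eval z / q.eval z = c := by
      intro z hz
      simp only [eval_sub, eval_mul, eval_C] at hz
      have hq : q.eval z ≠ 0 := fun h => no_common hc (by simpa [h] using hz) h
      exact ⟨hq, by rw [div_eq_iff hq]; linear_combination hz⟩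
    have h1 : d ≤ (p - C c * q).natDegree := le_natDegree_of_ne_zero (by simpa using hcd)
    obtain ⟨z, hz⟩ := IsAlgClosed.exists_root (p - C c * q)
      (natDegree_pos_iff_degree_pos.1 (by omega)).ne'
    obtain ⟨r, hr⟩ := dvd_iff_isRoot.2 hz
    have h2 : (p - C c * q).natDegree ≤ 1 + r.natDegree := by
      rw [hr]
      exact natDegree_mul_le.trans (by rw [natDegree_X_sub_C])
    obtain ⟨w, hw⟩ := IsAlgClosed.exists_root r (natDegree_pos_iff_degree_pos.1 (by omega)).ne'
    have hw' : (p - C c * q).eval w = 0 := by rw [hr, eval_mul, hw.eq_zero, mul_zero]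
    have e : z = w := by
      by_contra hne
      exact hcon z w hne (val z hz).1 (val w hw').1 ((val z hz).2.trans (val w hw').2.symm)
    subst e
    refine ⟨z, ?_, (val z hz).2⟩
    have h3 := congrArg (fun s => eval z (derivative s)) hr
    have h4 : (p - C c * q).eval z = 0 := hz
    simp only [derivative_sub, derivative_mul, derivative_C, derivative_X, eval_sub, eval_add,
      eval_mul, eval_C, eval_X, sub_self, zero_mul, zero_add, add_zero, sub_zero,
      one_mul, hw.eq_zero] at h3 h4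
    simp only [IsRoot.def, wronskian, eval_sub, eval_mul]
    linear_combination (eval z (derivative q)) * h4 - (eval z q) * h3
  have hW : wronskian p q ≠ 0 := fun h => by
    obtain ⟨h1, h2⟩ := hc.wronskian_eq_zero_iff.1 h
    rw [hdd, derivative_eq_zero.1 h1,
      derivative_eq_zero.1 h2] at hd
    simp at hd
  have hfin : {z | (wronskian p q).IsRoot z}.Finite :=
    not_infinite.1 fun h => hW (eq_zero_of_infinite_isRoot _ h)
  refine (infinite_univ (α := ℂ)) (((hfin.image fun z => p.eval z / q.eval z).union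
    (finite_singleton (p.coeff d / q.coeff d))).subset fun c _ => ?_)
  by_cases hcd : p.coeff d - c * q.coeff d = 0
  · have hq : q.coeff d ≠ 0 := fun h => top_ne hd (by simpa [h] using hcd) h
    exact Or.inr (by rw [mem_singleton_iff, eq_div_iff hq]; linear_combination -hcd)
  · obtain ⟨z, h1, h2⟩ := key c hcd
    exact Or.inl ⟨z, h1, h2⟩

theorem an {p q : ℂ[X]} {z : ℂ} (hq : q.eval z ≠ 0) :
    AnalyticAt ℂ (fun w => p.eval w / q.eval w) z :=
  ((p.differentiable.analyticAt z).div (q.differentiable.analyticAt z) hq)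

theorem opn {p q : ℂ[X]} (hc : IsCoprime p q) (hd : 2 ≤ max p.natDegree q.natDegree) {z : ℂ}
    (hq : q.eval z ≠ 0) {U : Set ℂ} (hU : U ∈ 𝓝 z) :
    (fun w => p.eval w / q.eval w) '' U ∈ 𝓝 (p.eval z / q.eval z) := by
  rcases (an (p := p) hq).eventually_constant_or_nhds_le_map_nhds with h | h
  · exfalso
    have h1 : ∀ᶠ w in 𝓝 z, q.eval w ≠ 0 := q.continuous.continuousAt.eventually_ne hq
    have h2 : p - C (p.eval z / q.eval z) * q = 0 := by
      refine eq_zero_of_infinite_isRoot _ (infinite_of_mem_nhds z ?_)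
      filter_upwards [h, h1] with w a b
      simp only [IsRoot.def, eval_sub, eval_mul, eval_C]
      rw [← a, div_mul_cancel₀ _ b, sub_self]
    have h3 : q.natDegree = 0 := natDegree_eq_zero_of_isUnit
      (hc.isUnit_of_dvd' ⟨C (p.eval z / q.eval z), by linear_combination h2⟩ dvd_rfl)
    have h4 : p.natDegree ≤ q.natDegree := by
      rw [sub_eq_zero.1 h2]
      exact natDegree_C_mul_le _ _
    omega
  · exact h (image_mem_map hU)

theorem not_dense {p q : ℂ[X]} (hc : IsCoprime p q) (hd : 2 ≤ max p.natDegree q.natDegree)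
    {T : Set ℂ} (hT : IsOpen T) (hi : ∀ z ∈ T, ∀ w ∈ T, q.eval z ≠ 0 → q.eval w ≠ 0 →
      p.eval z / q.eval z = p.eval w / q.eval w → z = w) : ¬ Dense T := by
  intro hD
  obtain ⟨z, w, hne, hz, hw, e⟩ := noninj hc hd
  obtain ⟨U, V, hU, hV, hzU, hwV, hUV⟩ := t2_separation hne
  have hO : IsOpen {x : ℂ | q.eval x ≠ 0} := isOpen_ne_fun q.continuous continuous_const
  have h1 := opn hc hd hw ((hV.inter hO).mem_nhds ⟨hwV, hw⟩)
  rw [← e] at h1
  obtain ⟨z1, ⟨⟨a1, a2⟩, w1, ⟨b1, b2⟩, b3⟩, a3⟩ := mem_closure_iff_nhds.1 (hD z) _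
    (inter_mem ((hU.inter hO).mem_nhds ⟨hzU, hz⟩) ((an (p := p) hz).continuousAt h1))
  have h2 := opn hc hd a2 (((hU.inter hO).inter hT).mem_nhds ⟨⟨a1, a2⟩, a3⟩)
  rw [← show p.eval w1 / q.eval w1 = p.eval z1 / q.eval z1 from b3] at h2
  obtain ⟨w2, ⟨⟨c1, c2⟩, z2, ⟨⟨d1, d2⟩, d3⟩, d4⟩, c3⟩ := mem_closure_iff_nhds.1 (hD w1) _
    (inter_mem ((hV.inter hO).mem_nhds ⟨b1, b2⟩) ((an (p := p) b2).continuousAt h2))
  exact disjoint_left.1 hUV d1 (hi z2 d3 w2 c3 d2 c2 d4 ▸ c1)

/-- The chart of the sphere minus `a`. -/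
noncomputable def mm (a : ℂ) (x : OnePoint ℂ) : ℂ := x.elim a⁻¹ fun z => (z - a)⁻¹ + a⁻¹

open Classical in
/-- Its inverse. -/
noncomputable def nn (a w : ℂ) : OnePoint ℂ :=
  if w = a⁻¹ then ∞ else ((a + (w - a⁻¹)⁻¹ : ℂ) : OnePoint ℂ)

theorem nn_of_ne {a w : ℂ} (h : w ≠ a⁻¹) : nn a w = ((a + (w - a⁻¹)⁻¹ : ℂ) : OnePoint ℂ) :=
  if_neg h

theorem mm_nn (a w : ℂ) : mm a (nn a w) = w := by
  by_cases h : w = a⁻¹
  · simp [mm, nn, h]
  · simp [mm, nn, h]

theorem nn_mm {a : ℂ} {x : OnePoint ℂ} (h : x ≠ (a : OnePoint ℂ)) : nn a (mm a x) = x := by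
  induction x using OnePoint.rec with
  | infty => simp [mm, nn]
  | coe z =>
    have h1 : z - a ≠ 0 := sub_ne_zero.2 fun e => h (by rw [e])
    simp [mm, nn, h1]

theorem mm_cont {a : ℂ} {x : OnePoint ℂ} (h : x ≠ (a : OnePoint ℂ)) : ContinuousAt (mm a) x := by
  induction x using OnePoint.rec with
  | infty =>
    rw [continuousAt_infty', coclosedCompact_eq_cocompact, ← Metric.cobounded_eq_cocompact]
    have h1 := (tendsto_inv₀_cobounded.comp (tendsto_sub_const_cobounded a)).add_const a⁻¹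
    rw [zero_add] at h1
    exact h1
  | coe z =>
    have h1 : z - a ≠ 0 := sub_ne_zero.2 fun e => h (by rw [e])
    rw [continuousAt_coe]
    exact ((continuousAt_id.sub continuousAt_const).inv₀ h1).add continuousAt_const

theorem nn_ev {a w : ℂ} (h : w ≠ a⁻¹) :
    nn a =ᶠ[𝓝 w] fun w => ((a + (w - a⁻¹)⁻¹ : ℂ) : OnePoint ℂ) :=
  (eventually_ne_nhds h).mono fun _ hw => nn_of_ne hw

theorem nn_cont (a : ℂ) : Continuous (nn a) := by
  refine continuous_iff_continuousAt.2 fun w => ?_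
  by_cases h : w = a⁻¹
  · rw [← continuousWithinAt_compl_self, ContinuousWithinAt, show nn a w = ∞ from if_pos h]
    have h1 : Tendsto (fun x : ℂ => x - a⁻¹) (𝓝[≠] w) (𝓝[≠] 0) :=
      tendsto_nhdsWithin_iff.2 ⟨((continuous_id.sub continuous_const).tendsto' w 0
        (by simp [h])).mono_left nhdsWithin_le_nhds,
        eventually_mem_nhdsWithin.mono fun x hx => sub_ne_zero.2 (h ▸ hx)⟩
    have h2 := (tendsto_const_add_cobounded a).comp (tendsto_inv₀_nhdsNE_zero.comp h1)
    rw [Metric.cobounded_eq_cocompact, ← coclosedCompact_eq_cocompact] at h2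
    exact (tendsto_coe_infty.comp h2).congr'
      (eventually_mem_nhdsWithin.mono fun x hx => (nn_of_ne (h ▸ hx)).symm)
  · refine ContinuousAt.congr ?_ (nn_ev h).symm
    exact continuous_coe.continuousAt.comp (continuousAt_const.add
      ((continuousAt_id.sub continuousAt_const).inv₀ (sub_ne_zero.2 h)))

/-- The homogenised composition with the inverse chart. -/
noncomputable def pt (a : ℂ) (d : ℕ) (p : ℂ[X]) : ℂ[X] :=
  ∑ i ∈ Finset.range (d + 1), C (p.coeff i) * (C a * (X - C a⁻¹) + 1) ^ i * (X - C a⁻¹) ^ (d - i)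

theorem pt_ne {a w : ℂ} {d : ℕ} {p : ℂ[X]} (hp : p.natDegree ≤ d) (h : w ≠ a⁻¹) :
    (pt a d p).eval w = (w - a⁻¹) ^ d * p.eval (a + (w - a⁻¹)⁻¹) := by
  have h1 : w - a⁻¹ ≠ 0 := sub_ne_zero.2 h
  rw [eval_eq_sum_range' (Nat.lt_succ_of_le hp) (a + (w - a⁻¹)⁻¹), Finset.mul_sum, pt,
    eval_finsetSum]
  refine Finset.sum_congr rfl fun i hi => ?_
  obtain ⟨j, rfl⟩ : ∃ j, d = i + j := ⟨d - i, by have := Finset.mem_range.1 hi; omega⟩
  simp only [eval_mul, eval_pow, eval_add, eval_sub, eval_C, eval_X, eval_one,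
    Nat.add_sub_cancel_left]
  generalize w - a⁻¹ = u at h1
  rw [show a * u + 1 = u * (a + u⁻¹) by field_simp, mul_pow, pow_add]
  ring

theorem pt_eq (a : ℂ) (d : ℕ) (p : ℂ[X]) : (pt a d p).eval a⁻¹ = p.coeff d := by
  rw [pt, eval_finsetSum, Finset.sum_range_succ, Finset.sum_eq_zero fun i hi => by
    have : d - i ≠ 0 := by have := Finset.mem_range.1 hi; omega
    simp [this]]
  simp

theorem reduce {lam : ℂ} (hl : lam ≠ 0)
    (H : ∀ (P Q : ℂ[X]) (S : Set ℂ) (h : ℂ → ℂ), IsCoprime P Q →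
      1 ≤ max P.natDegree Q.natDegree → IsOpen S → IsPreconnected S → (0 : ℂ) ∈ S →
      Bornology.IsBounded S → (∀ z ∈ closure S, Q.eval z ≠ 0) →
      MapsTo (fun z => P.eval z / Q.eval z) S S → DifferentiableOn ℂ h S → InjOn h S → h 0 = 0 →
      (∀ z ∈ S, h (P.eval z / Q.eval z) = lam * h z) →
      InjOn (fun z => P.eval z / Q.eval z) (closure S))
    {p q : ℂ[X]} {f : OnePoint ℂ → OnePoint ℂ} {S : Set (OnePoint ℂ)} {h : OnePoint ℂ → ℂ}
    (hc : IsCoprime p q) (hd : 2 ≤ max p.natDegree q.natDegree) (hf : Continuous f)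
    (hpq : ∀ z : ℂ, q.eval z ≠ 0 → f z = ((p.eval z / q.eval z : ℂ) : OnePoint ℂ))
    (hS : IsOpen S) (hSc : IsPreconnected S) (h0 : ((0 : ℂ) : OnePoint ℂ) ∈ S)
    (hm : MapsTo f S S) (hh : ContinuousOn h S)
    (hh' : DifferentiableOn ℂ (fun z : ℂ => h z) {z : ℂ | (z : OnePoint ℂ) ∈ S})
    (hi : InjOn h S) (hz : h (0 : ℂ) = 0) (he : ∀ x ∈ S, h (f x) = lam * h x) :
    InjOn f (closure S) := by
  have fi : InjOn f S := fun x hx y hy e =>
    hi hx hy (mul_left_cancel₀ hl (by rw [← he x hx, ← he y hy, e]))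
  have hT : IsOpen {z : ℂ | (z : OnePoint ℂ) ∈ S} := hS.preimage continuous_coe
  have hnd := not_dense hc hd hT fun z hz w hw a b e =>
    coe_injective (fi hz hw (by rw [hpq z a, hpq w b, e]))
  obtain ⟨a, ha⟩ := not_forall.1 hnd
  obtain ⟨ε, hε, hball⟩ : ∃ ε > 0, ∀ z : ℂ, (z : OnePoint ℂ) ∈ S → ε ≤ ‖z - a‖ := by
    by_contra hcon
    push Not at hcon
    refine ha (Metric.mem_closure_iff.2 fun ε hε => ?_)
    obtain ⟨z, h1, h2⟩ := hcon ε hε
    exact ⟨z, h1, by rwa [dist_comm, dist_eq_norm]⟩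
  have hna : ∀ x ∈ closure S, x ≠ (a : OnePoint ℂ) := by
    rintro _ hx rfl
    obtain ⟨_, ⟨z, h1, rfl⟩, h2⟩ := mem_closure_iff.1 hx _
      (isOpenEmbedding_coe.isOpenMap _ (Metric.isOpen_ball (x := a) (ε := ε)))
      ⟨a, Metric.mem_ball_self hε, rfl⟩
    exact absurd (hball z h2) (not_le.2 (mem_ball_iff_norm.1 h1))
  have ha0 : a ≠ 0 := fun e => hna _ (subset_closure h0) (by rw [e])
  have n0 : nn a 0 = ((0 : ℂ) : OnePoint ℂ) := by
    rw [nn_of_ne (inv_ne_zero ha0).symm]
    simp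
  set d := max p.natDegree q.natDegree with hdd
  have dp : p.natDegree ≤ d := le_max_left _ _
  have dq : q.natDegree ≤ d := le_max_right _ _
  set P := pt a d p with hP
  set R := pt a d q with hR
  set Q := C a * (P - C a * R) with hQ
  have eQ : ∀ w, Q.eval w = a * (P.eval w - a * R.eval w) := fun w => by simp [hQ]
  have nc : ∀ w, P.eval w = 0 → Q.eval w = 0 → False := fun w h1 h2 => by
    have h3 : R.eval w = 0 := by simpa [eQ, h1, ha0] using h2
    by_cases hw : w = a⁻¹
    · rw [hw, pt_eq] at h1 h3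
      exact top_ne hd h1 h3
    · have h4 := pow_ne_zero d (sub_ne_zero.2 hw)
      rw [pt_ne dp hw] at h1
      rw [pt_ne dq hw] at h3
      exact no_common hc ((mul_eq_zero.1 h1).resolve_left h4) ((mul_eq_zero.1 h3).resolve_left h4)
  have R0 : R ≠ 0 := fun e => by
    have hq0 : q = 0 := by
      refine eq_zero_of_infinite_isRoot _ ((finite_singleton a).infinite_compl.mono fun z hz => ?_)
      have h1 : (z - a)⁻¹ + a⁻¹ ≠ a⁻¹ := by simpa using sub_ne_zero.2 hz
      have h2 := pt_ne dq h1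
      rw [← hR, e, eval_zero] at h2
      simpa using (mul_eq_zero.1 h2.symm).resolve_left (pow_ne_zero d (sub_ne_zero.2 h1))
    rw [hq0] at hc
    rw [hdd, hq0, natDegree_eq_zero_of_isUnit (isCoprime_zero_right.1 hc)] at hd
    simp at hd
  set S' := nn a ⁻¹' S with hS'
  have im : mm a '' S = S' := by
    refine Subset.antisymm ?_ fun w hw => ⟨_, hw, mm_nn a w⟩
    rintro _ ⟨x, hx, rfl⟩
    show nn a (mm a x) ∈ S
    rwa [nn_mm (hna x (subset_closure hx))]
  have cl : ∀ w ∈ closure S', f (nn a w) ≠ (a : OnePoint ℂ) := fun w hw =>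
    hna _ (hm.closure hf (map_mem_closure (nn_cont a) hw fun _ h => h))
  have key : ∀ w ∈ closure S', Q.eval w * mm a (f (nn a w)) = P.eval w := fun w hw => by
    have c1 : ContinuousAt (fun w => f (nn a w)) w := (hf.comp (nn_cont a)).continuousAt
    have c2 : ContinuousAt (fun w => Q.eval w * mm a (f (nn a w))) w :=
      Q.continuous.continuousAt.mul (ContinuousAt.comp (g := mm a) (mm_cont (cl w hw)) c1)
    have fin : ({x | R.IsRoot x} ∪ {a⁻¹}).Finite :=
      (not_infinite.1 fun h => R0 (eq_zero_of_infinite_isRoot _ h)).union (finite_singleton _)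
    have e1 : ∀ᶠ x in 𝓝[≠] w, x ∉ {x | R.IsRoot x} ∪ {a⁻¹} := by
      have h1 : (({x | R.IsRoot x} ∪ {a⁻¹}) \ {w})ᶜ ∈ 𝓝 w :=
        (fin.subset sdiff_subset).isClosed.isOpen_compl.mem_nhds fun h => h.2 rfl
      filter_upwards [mem_nhdsWithin_of_mem_nhds h1, self_mem_nhdsWithin] with x b1 b2 b3
      exact b1 ⟨b3, b2⟩
    refine tendsto_nhds_unique (c2.mono_left (nhdsWithin_le_nhds (s := {w}ᶜ)))
      ((P.continuous.continuousAt.mono_left nhdsWithin_le_nhds).congr' ?_)
    filter_upwards [e1, mem_nhdsWithin_of_mem_nhds (c1.eventually_ne (cl w hw))] with x b1 b2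
    have b3 : x ≠ a⁻¹ := fun e => b1 (Or.inr e)
    have b4 : R.eval x ≠ 0 := fun e => b1 (Or.inl e)
    have b5 : q.eval (a + (x - a⁻¹)⁻¹) ≠ 0 := fun e => b4 (by rw [pt_ne dq b3, e, mul_zero])
    have b6 : f (nn a x) ≠ (a : OnePoint ℂ) := b2
    rw [nn_of_ne b3, hpq _ b5] at b6 ⊢
    have b7 : p.eval (a + (x - a⁻¹)⁻¹) - a * q.eval (a + (x - a⁻¹)⁻¹) ≠ 0 := fun e =>
      b6 (by rw [coe_eq_coe, div_eq_iff b5]; linear_combination e)
    rw [eQ, pt_ne dp b3, pt_ne dq b3]
    simp only [mm, elim_some]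
    generalize p.eval (a + (x - a⁻¹)⁻¹) = s at b7
    generalize q.eval (a + (x - a⁻¹)⁻¹) = t at b5 b7
    rw [show s / t - a = (s - a * t) / t by field_simp, inv_div]
    field_simp
    ring
  have Q0 : ∀ w ∈ closure S', Q.eval w ≠ 0 := fun w hw e =>
    nc w (by rw [← key w hw, e, zero_mul]) e
  have val : ∀ w ∈ closure S', P.eval w / Q.eval w = mm a (f (nn a w)) := fun w hw => by
    rw [div_eq_iff (Q0 w hw), ← key w hw, mul_comm]
  have val' : ∀ w ∈ closure S', nn a (P.eval w / Q.eval w) = f (nn a w) := fun w hw => by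
    rw [val w hw, nn_mm (cl w hw)]
  have ni : Function.Injective (nn a) := fun x y e => by rw [← mm_nn a x, e, mm_nn]
  have o' : IsOpen S' := hS.preimage (nn_cont a)
  have z' : (0 : ℂ) ∈ S' := by rw [hS', mem_preimage, n0]; exact h0
  have main := H P Q S' (fun w => h (nn a w))
    ((isCoprime_iff_aeval_ne_zero_of_isAlgClosed ℂ ℂ P Q).2 fun w => by
      by_contra hcon
      push Not at hcon
      exact nc w (by simpa using hcon.1) (by simpa using hcon.2))
    (by
      by_contra hcon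
      obtain ⟨c1, e1⟩ := natDegree_eq_zero.1 (show P.natDegree = 0 by omega)
      obtain ⟨c2, e2⟩ := natDegree_eq_zero.1 (show Q.natDegree = 0 by omega)
      obtain ⟨w, hw, hne⟩ := (infinite_of_mem_nhds 0 (o'.mem_nhds z')).exists_notMem_finite
        (finite_singleton 0)
      refine hne (ni (fi hw z' ?_))
      rw [← val' w (subset_closure hw), ← val' 0 (subset_closure z'), ← e1, ← e2]
      simp)
    o' (im ▸ hSc.image _ fun x hx => (mm_cont (hna x (subset_closure hx))).continuousWithinAt) z'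
    ((Metric.isBounded_closedBall (x := a⁻¹) (r := ε⁻¹)).subset (by
      rw [← im]
      rintro _ ⟨x, hx, rfl⟩
      induction x using OnePoint.rec with
      | infty => exact Metric.mem_closedBall_self (by positivity)
      | coe z =>
        rw [mem_closedBall_iff_norm]
        simp only [mm, elim_some, add_sub_cancel_right, norm_inv]
        exact inv_anti₀ hε (hball z hx)))
    Q0 (fun w hw => by
      show nn a (P.eval w / Q.eval w) ∈ S
      rw [val' w (subset_closure hw)]
      exact hm hw)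
    (by
      have h1 : DifferentiableOn ℂ (fun w => h (nn a w)) (S' \ {a⁻¹}) := fun w hw => by
        have b1 : w ≠ a⁻¹ := hw.2
        have b2 : ((a + (w - a⁻¹)⁻¹ : ℂ) : OnePoint ℂ) ∈ S := nn_of_ne b1 ▸ hw.1
        have b3 : DifferentiableAt ℂ (fun w : ℂ => a + (w - a⁻¹)⁻¹) w :=
          (DifferentiableAt.fun_inv (h := fun w : ℂ => w - a⁻¹) (differentiableAt_id.sub_const _)
            (sub_ne_zero.2 b1)).const_add a
        exact ((DifferentiableAt.comp (g := fun z : ℂ => h z) w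
          (hh'.differentiableAt (hT.mem_nhds b2)) b3).congr_of_eventuallyEq
          ((nn_ev b1).mono fun x hx => congrArg h hx)).differentiableWithinAt
      by_cases hw : a⁻¹ ∈ S'
      · exact (Complex.differentiableOn_compl_singleton_and_continuousAt_iff (o'.mem_nhds hw)).1
          ⟨h1, (hh.continuousAt (hS.mem_nhds hw)).comp (nn_cont a).continuousAt⟩
      · rwa [sdiff_singleton_eq_self hw] at h1)
    (fun x hx y hy e => ni (hi hx hy e)) (by simp only [n0, hz])
    (fun w hw => by simp only [val' w (subset_closure hw), he _ hw])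
  intro x hx y hy e
  have m1 : ∀ x ∈ closure S, mm a x ∈ closure S' := fun x hx =>
    im ▸ mem_closure_image (mm_cont (hna x hx)) hx
  have m2 := main (m1 x hx) (m1 y hy) (by
    simp only [val _ (m1 x hx), val _ (m1 y hy), nn_mm (hna x hx), nn_mm (hna y hy), e])
  rw [← nn_mm (hna x hx), m2, nn_mm (hna y hy)]

end Pool.Agent.Work.MP_042f46_an.Sp
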