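import Pool.Agent.Results.MP_042f46_an.Sphere

/-! Sanity check, imported by nothing: the continuous map of the sphere in the hand-in `Sphere`
exists for all coprime `p`, `q` with `q ≠ 0`, and `Sphere` implies the parked `AllAlpha`. -/

open Polynomial Filter Topology OnePoint Set

namespace Pool.Agent.Work.MP_042f46_an.Sp.Ext

noncomputable def G (P Q : ℂ[X]) (z : ℂ) : OnePoint ℂ :=
  open Classical in if Q.eval z = 0 then ∞ else ((P.eval z / Q.eval z : ℂ) : OnePoint ℂ)

theorem G_cont {P Q : ℂ[X]} (hQ : Q ≠ 0) {a : ℂ} (h : P.eval a ≠ 0 ∨ Q.eval a ≠ 0) :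
    ContinuousAt (G P Q) a := by
  by_cases k : Q.eval a = 0
  · have hP : P.eval a ≠ 0 := h.resolve_right (not_not.2 k)
    have ha : G P Q a = ∞ := by simp [G, k]
    rw [ContinuousAt, ha, (hasBasis_nhds_infty).tendsto_right_iff]
    rintro K ⟨-, hK⟩
    obtain ⟨R, hR⟩ := hK.isBounded.exists_norm_le
    have c : ContinuousAt (fun z => ‖P.eval z‖ - R * ‖Q.eval z‖) a := by fun_prop
    have : ∀ᶠ z in 𝓝 a, 0 < ‖P.eval z‖ - R * ‖Q.eval z‖ :=
      c.eventually (lt_mem_nhds (by simp [k, hP]))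
    filter_upwards [this] with z hz
    by_cases kz : Q.eval z = 0
    · right; simp [G, kz]
    · left
      refine ⟨P.eval z / Q.eval z, fun m => ?_, by simp [G, kz]⟩
      have := hR _ m
      rw [norm_div, div_le_iff₀ (norm_pos_iff.2 kz)] at this
      linarith
  · have e : ∀ᶠ z in 𝓝 a, Q.eval z ≠ 0 := Q.continuous.continuousAt.eventually_ne k
    have c : ContinuousAt (fun z => ((P.eval z / Q.eval z : ℂ) : OnePoint ℂ)) a :=
      continuous_coe.continuousAt.comp (P.continuous.continuousAt.div Q.continuous.continuousAt k)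
    refine c.congr ?_
    filter_upwards [e] with z hz
    simp [G, hz]

theorem ext_exists (p q : ℂ[X]) (hc : IsCoprime p q) (hq : q ≠ 0) :
    ∃ f : OnePoint ℂ → OnePoint ℂ, Continuous f ∧
      ∀ z : ℂ, q.eval z ≠ 0 → f z = ((p.eval z / q.eval z : ℂ) : OnePoint ℂ) := by
  set n := max p.natDegree q.natDegree with hn
  have hcop : ∀ z : ℂ, p.eval z ≠ 0 ∨ q.eval z ≠ 0 := fun z => by
    obtain ⟨u, v, e⟩ := hc
    by_contra! k
    have := congrArg (eval z) e
    simp [k.1, k.2] at this
  have ev : ∀ (r : ℂ[X]), r.natDegree ≤ n → ∀ z : ℂ, z ≠ 0 →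
      (reflect n r).eval z⁻¹ * z ^ n = r.eval z := fun r hr z hz => by
    let _ := invertibleOfNonzero hz
    have := eval₂_reflect_mul_pow (RingHom.id ℂ) z n r hr
    simpa [eval₂_id] using this
  have h0 : (reflect n p).eval 0 ≠ 0 ∨ (reflect n q).eval 0 ≠ 0 := by
    rw [← coeff_zero_eq_eval_zero, ← coeff_zero_eq_eval_zero, coeff_reflect, coeff_reflect]
    simp only [revAt_zero]
    rcases le_total p.natDegree q.natDegree with k | k
    · right; rw [hn, max_eq_right k]; exact leadingCoeff_ne_zero.2 hq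
    · by_cases hp : p = 0
      · right
        have : q.natDegree = 0 := by simpa [hp] using k
        rw [hn, hp, natDegree_zero, max_eq_right (Nat.zero_le _)]
        exact leadingCoeff_ne_zero.2 hq
      · left; rw [hn, max_eq_left k]; exact leadingCoeff_ne_zero.2 hp
  refine ⟨fun x => OnePoint.rec (G (reflect n p) (reflect n q) 0) (G p q) x, ?_, fun z hz => by
    show G p q z = _
    simp [G, hz]⟩
  rw [OnePoint.continuous_iff]
  refine ⟨?_, continuous_iff_continuousAt.2 fun a => G_cont hq (hcop a)⟩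
  have t : Tendsto (fun z : ℂ => z⁻¹) (coclosedCompact ℂ) (𝓝 0) := by
    rw [coclosedCompact_eq_cocompact, ← Metric.cobounded_eq_cocompact]
    exact tendsto_inv₀_cobounded
  have hq' : reflect n q ≠ 0 := fun k => hq (reflect_eq_zero_iff.1 k)
  refine ((G_cont hq' h0).tendsto.comp t).congr' ?_
  have e : ∀ᶠ z : ℂ in coclosedCompact ℂ, z ≠ 0 := by
    rw [coclosedCompact_eq_cocompact]
    exact (isCompact_singleton (x := (0 : ℂ))).compl_mem_cocompact
  filter_upwards [e] with z hz
  have a := ev p (le_max_left _ _) z hz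
  have b := ev q (le_max_right _ _) z hz
  have hzn : z ^ n ≠ 0 := pow_ne_zero _ hz
  show G (reflect n p) (reflect n q) z⁻¹ = G p q z
  unfold G
  by_cases k : q.eval z = 0
  · have : (reflect n q).eval z⁻¹ = 0 := by
      rw [k] at b; exact (mul_eq_zero.1 b).resolve_right hzn
    simp [k, this]
  · have k' : (reflect n q).eval z⁻¹ ≠ 0 := fun m => k (by rw [← b, m, zero_mul])
    rw [if_neg k, if_neg k', ← a, ← b, mul_div_mul_right _ _ hzn]

theorem allAlpha :
    ∀ (p q : Polynomial ℂ) (α : ℝ) (S : Set ℂ),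
      IsCoprime p q → 2 ≤ max p.natDegree q.natDegree → Irrational α →
      IsOpen S → IsConnected S → (0 : ℂ) ∈ S → Bornology.IsBounded (closure S) →
      (∀ z ∈ closure S, q.eval z ≠ 0) →
      Set.MapsTo (fun z : ℂ => p.eval z / q.eval z) S S →
      (∃ h : ℂ → ℂ, DifferentiableOn ℂ h S ∧ Set.InjOn h S ∧ h 0 = 0 ∧
        ∀ z ∈ S, h (p.eval z / q.eval z)
          = Complex.exp (2 * (Real.pi : ℂ) * Complex.I * (α : ℂ)) * h z) →
      Set.InjOn (fun z : ℂ => p.eval z / q.eval z) (closure S) := by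
  rintro p q α S hc hd hα hS hSc h0 hb hq hm ⟨h, hh, hi, hz, hf⟩
  have hq0 : q ≠ 0 := fun k => hq 0 (subset_closure h0) (by simp [k])
  obtain ⟨f, fc, fe⟩ := ext_exists p q hc hq0
  have key := Pool.Agent.Results.MP_042f46_an.Sphere.result p q α f ((↑) '' S) hc hd fc fe hα
    (isOpenEmbedding_coe.isOpenMap _ hS) (hSc.image _ continuous_coe.continuousOn)
    ⟨0, h0, rfl⟩ (by
      rintro _ ⟨z, hz, rfl⟩
      exact ⟨_, hm hz, (fe z (hq z (subset_closure hz))).symm⟩)
    ⟨fun x => OnePoint.rec 0 h x, by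
      rintro _ ⟨z, hz, rfl⟩
      refine ContinuousAt.continuousWithinAt ?_
      rw [continuousAt_coe]
      exact hh.continuousOn.continuousAt (hS.mem_nhds hz), by
      have : {z : ℂ | (z : OnePoint ℂ) ∈ ((↑) '' S : Set (OnePoint ℂ))} = S := by
        ext z; simp
      rw [this]; exact hh, by
      rintro _ ⟨z, hz, rfl⟩ _ ⟨w, hw, rfl⟩ e
      exact congrArg _ (hi hz hw e), by exact hz, by
      rintro _ ⟨z, hz', rfl⟩
      rw [fe z (hq z (subset_closure hz'))]
      exact hf z hz'⟩
  intro z hz w hw e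
  have m : ∀ u ∈ closure S, (u : OnePoint ℂ) ∈ closure ((↑) '' S : Set (OnePoint ℂ)) :=
    fun u hu => image_closure_subset_closure_image continuous_coe ⟨u, hu, rfl⟩
  exact coe_injective (key (m z hz) (m w hw) (by
    rw [fe z (hq z hz), fe w (hq w hw)]; exact congrArg _ e))

end Pool.Agent.Work.MP_042f46_an.Sp.Ext
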